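import Pool.Agent.Helper76.PB.GoalsF
import Pool.Agent.Helper5.PP.BTRS
import Pool.Agent.Helper83.PP.BFRE
import Pool.Agent.Helper16.PP.PUPR
import Pool.Agent.Helper14.PP.BKUM

set_option autoImplicit false

namespace Pool.Agent.Helper91.PB

open NumberField Polynomial Module IsDedekindDomain
open Pool.Agent.Helper51.RP Pool.Agent.Helper42.RD Pool.Agent.Helper42.PP Pool.Agent.Helper42.PP1
open Pool.Agent.Helper42.PB Pool.Agent.Helper76.PB
open Pool.Agent.Helper38.RS (pz)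

theorem x_spd : Pool.Agent.Helper76.PB.X_SPD := by
  classical
  intro F E _ _ _ _ _ _ Z hZ hunr
  obtain ⟨C1, hC1⟩ := Pool.Agent.Helper14.PP.psmK E
  obtain ⟨C2, hC2⟩ := Pool.Agent.Helper5.PP.b_trs Pool.Agent.Helper83.PP.b_fre
    Pool.Agent.Helper16.PP.p_upr F E hZ.toFinset
    (fun v hv => hunr v (fun h => hv (hZ.mem_toFinset.2 h)))
  have hn : (0 : ℝ) < finrank F E := by exact_mod_cast Module.finrank_pos
  refine ⟨(C1 + C2 / 2) / finrank F E, ?_⟩
  intro s hs1 hs2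
  have h1 := hC2 ∅ (SplZ E Z) (fun _ => 2) (fun _ => ⟨by norm_num, le_refl _⟩)
    (fun W v hW hfree hv _ hv2 => by
      exfalso
      exact hv2 ⟨fun h => hv (hZ.mem_toFinset.2 h), W, hW, hfree⟩) s hs1 hs2
  have h2 : ∑' W : HeightOneSpectrum (𝓞 E), (2 : ℝ) * (Ideal.absNorm W.asIdeal : ℝ) ^ (-s) =
      2 * pz (F := E) Set.univ s := by
    rw [tsum_mul_left]
    congr 1
    unfold pz
    exact (tsum_univ fun W : HeightOneSpectrum (𝓞 E) => (Ideal.absNorm W.asIdeal : ℝ) ^ (-s)).symm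
  rw [h2, Finset.sum_empty, mul_zero, add_zero] at h1
  have h3 := (abs_le.1 (hC1 s hs1 hs2)).1
  rw [sub_le_iff_le_add, ← sub_le_iff_le_add']
  have h4 : 1 / (finrank F E : ℝ) * Real.log (1 / (s - 1)) - (C1 + C2 / 2) / finrank F E =
      (Real.log (1 / (s - 1)) - (C1 + C2 / 2)) / finrank F E := by
    ring
  have h5 : (Real.log (1 / (s - 1)) - (C1 + C2 / 2)) / finrank F E ≤ pz (SplZ E Z) s := by
    rw [div_le_iff₀ hn]
    nlinarith
  linarith

end Pool.Agent.Helper91.PB
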